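import Pool.Agent.H59.L.S8.W223.RA.Stms

/-! The pigeonhole argument with products of primes (part RA-PG2). -/

set_option autoImplicit false

namespace Pool.Agent.W511.RA.PG2

open Finset

theorem card_div {m : ℕ} (hm : Squarefree m) (N : ℕ) :
    (m ^ N).divisors.card ≤ (N + 1) ^ m.primeFactors.card := by
  have hm0 : m ≠ 0 := hm.ne_zero
  rw [Nat.card_divisors (pow_ne_zero _ hm0)]
  have h1 : ∏ x ∈ (m ^ N).primeFactors, ((m ^ N).factorization x + 1) ≤
      ∏ x ∈ (m ^ N).primeFactors, (N + 1) := by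
    refine Finset.prod_le_prod' fun x _ => ?_
    rw [Nat.factorization_pow, Finsupp.smul_apply, smul_eq_mul]
    have := (Nat.squarefree_iff_factorization_le_one hm0).1 hm x
    have h2 : N * m.factorization x ≤ N * 1 := Nat.mul_le_mul_left _ this
    omega
  refine h1.trans ?_
  rw [Finset.prod_const]
  refine Nat.pow_le_pow_right (Nat.succ_pos _) (Finset.card_le_card ?_)
  intro q hq
  rw [Nat.mem_primeFactors] at hq ⊢
  exact ⟨hq.1, hq.1.dvd_of_dvd_pow hq.2.1, hm0⟩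

theorem tPG2 (hLTE : Pool.Agent.W223.RA.StmtLTE) : Pool.Agent.W223.RA.StmtPG2 := by
  intro m e n K G Y s p x z hm he hs hp hpm hpY hinj hx hz hxG hG hdvd hcard
  classical
  have hm0 : m ≠ 0 := hm.ne_zero
  have hmpos : 0 < m := Nat.pos_of_ne_zero hm0
  -- `n` is positive
  have hn : 0 < n := by
    rcases Nat.eq_zero_or_pos n with h | h
    · exfalso
      subst h
      have h1 : 1 ≤ (0 * K + 1) ^ (2 * m.primeFactors.card) := Nat.one_le_pow _ _ (by omega)
      have h2 : 8 * m * 1 ≤ 8 * m * (0 * K + 1) ^ (2 * m.primeFactors.card) :=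
        Nat.mul_le_mul_left _ h1
      have h3 : (2 : ℕ) ^ 0 = 1 := rfl
      omega
    · exact h
  have hY : 1 ≤ Y := (hp ⟨0, hn⟩).one_lt.le.trans (hpY ⟨0, hn⟩)
  -- the pigeonhole map
  set D : Finset ℕ := (m ^ (n * K)).divisors with hD
  have hmemD : ∀ (w : Fin n → ℕ), (∀ i, w i ∣ m ^ K) → ∀ I : Finset (Fin n), ∏ i ∈ I, w i ∈ D := by
    intro w hw I
    rw [hD, Nat.mem_divisors]
    refine ⟨?_, pow_ne_zero _ hm0⟩
    have h1 : ∏ i ∈ I, w i ∣ ∏ _i ∈ I, m ^ K := Finset.prod_dvd_prod_of_dvd _ _ fun i _ => hw i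
    refine h1.trans ?_
    rw [Finset.prod_const, ← pow_mul]
    refine pow_dvd_pow _ ?_
    have h2 : I.card ≤ n := by simpa using Finset.card_le_univ I
    rw [Nat.mul_comm n K]
    exact Nat.mul_le_mul_left _ h2
  let φ : Finset (Fin n) → ℕ × ℕ × ℕ × ℕ := fun I =>
    (I.card % 2, ∏ i ∈ I, x i, ∏ i ∈ I, z i, (∏ i ∈ I, p i) % (4 * m))
  have hcardt : ((range 2) ×ˢ D ×ˢ D ×ˢ (range (4 * m))).card <
      (Finset.univ : Finset (Finset (Fin n))).card := by
    have h1 : (Finset.univ : Finset (Finset (Fin n))).card = 2 ^ n := by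
      rw [Finset.card_univ, Fintype.card_finset, Fintype.card_fin]
    rw [h1, Finset.card_product, Finset.card_product, Finset.card_product, Finset.card_range,
      Finset.card_range]
    refine lt_of_le_of_lt ?_ hcard
    have h2 : D.card ≤ (n * K + 1) ^ m.primeFactors.card := card_div hm (n * K)
    calc 2 * (D.card * (D.card * (4 * m))) = 8 * m * (D.card * D.card) := by ring
      _ ≤ 8 * m * ((n * K + 1) ^ m.primeFactors.card * (n * K + 1) ^ m.primeFactors.card) :=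
        Nat.mul_le_mul_left _ (Nat.mul_le_mul h2 h2)
      _ = 8 * m * (n * K + 1) ^ (2 * m.primeFactors.card) := by rw [two_mul, pow_add]
  obtain ⟨I, -, J, -, hIJ, hφ⟩ := Finset.exists_ne_map_eq_of_card_lt_of_maps_to hcardt
    (f := φ) (fun I _ => by
      simp only [φ, Finset.mem_coe, Finset.mem_product, Finset.mem_range]
      exact ⟨Nat.mod_lt _ two_pos, hmemD x hx I, hmemD z hz I, Nat.mod_lt _ (by omega)⟩)
  simp only [φ, Prod.mk.injEq] at hφ
  obtain ⟨hc, hX, hZ, hPQ⟩ := hφ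
  set P := ∏ i ∈ I, p i with hP
  set Q := ∏ i ∈ J, p i with hQ
  -- signs
  have hsign : s ^ I.card = s ^ J.card := by
    rcases hs with rfl | rfl
    · simp
    · rw [neg_one_pow_eq_pow_mod_two, hc, ← neg_one_pow_eq_pow_mod_two]
  -- congruence modulo `4 m`
  have h4m : ((4 * m : ℕ) : ℤ) ∣ (P : ℤ) - Q := by
    have h1 : Q ≡ P [MOD 4 * m] := hPQ.symm
    exact (Nat.modEq_iff_dvd.1 h1)
  -- congruence modulo `G`
  have hkey : ∀ I : Finset (Fin n), ((∏ i ∈ I, p i : ℕ) : ZMod G) ^ e *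
      ((∏ i ∈ I, x i : ℕ) : ZMod G) = ((s ^ I.card : ℤ) : ZMod G) * ((∏ i ∈ I, z i : ℕ) : ZMod G) := by
    intro I
    have h1 : ∀ i, ((p i : ℕ) : ZMod G) ^ e * ((x i : ℕ) : ZMod G) =
        ((s : ℤ) : ZMod G) * ((z i : ℕ) : ZMod G) := by
      intro i
      have h2 := (ZMod.intCast_zmod_eq_zero_iff_dvd _ G).2 (hdvd i)
      push_cast at h2
      exact sub_eq_zero.1 h2
    push_cast
    rw [← Finset.prod_pow, ← Finset.prod_mul_distrib, Finset.prod_congr rfl fun i _ => h1 i,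
      Finset.prod_mul_distrib, Finset.prod_const]
  have hI := hkey I
  have hJ := hkey J
  rw [← hX, ← hZ, ← hsign, ← hI] at hJ
  have hdiv1 : (G : ℤ) ∣ ((P : ℤ) ^ e - (Q : ℤ) ^ e) * ((∏ i ∈ I, x i : ℕ) : ℤ) := by
    rw [← ZMod.intCast_zmod_eq_zero_iff_dvd]
    push_cast
    rw [sub_mul, sub_eq_zero]
    have := hJ.symm
    push_cast at this
    rw [hP, hQ]
    push_cast
    exact this
  have hcopX : IsCoprime (G : ℤ) ((∏ i ∈ I, x i : ℕ) : ℤ) := by
    rw [Nat.isCoprime_iff_coprime]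
    exact (Nat.Coprime.prod_right fun i _ => (hxG i).symm)
  have hdiv2 : (G : ℤ) ∣ (P : ℤ) ^ e - (Q : ℤ) ^ e := hcopX.dvd_of_dvd_mul_right hdiv1
  have hPm : Nat.Coprime P m := Nat.Coprime.prod_left fun i _ =>
    ((hp i).coprime_iff_not_dvd).2 (hpm i)
  have hfin := hLTE G e P Q m he hG hPm h4m hdiv2
  -- `P` and `Q` are different
  have hmemP : ∀ (I : Finset (Fin n)) (i : Fin n), p i ∣ ∏ i ∈ I, p i ↔ i ∈ I := by
    intro I i
    constructor
    · intro h
      obtain ⟨j, hj, hij⟩ := ((hp i).prime.dvd_finsetProd_iff _).1 h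
      have := (Nat.prime_dvd_prime_iff_eq (hp i) (hp j)).1 hij
      rw [hinj this]; exact hj
    · intro h
      exact Finset.dvd_prod_of_mem _ h
  have hne : P ≠ Q := by
    intro h
    apply hIJ
    ext i
    rw [← hmemP I i, ← hmemP J i, ← hP, ← hQ, h]
  have hle : ∀ I : Finset (Fin n), ∏ i ∈ I, p i ≤ Y ^ n := by
    intro I
    calc ∏ i ∈ I, p i ≤ ∏ _i ∈ I, Y := Finset.prod_le_prod' fun i _ => hpY i
      _ = Y ^ I.card := Finset.prod_const _
      _ ≤ Y ^ n := Nat.pow_le_pow_right hY (by simpa using Finset.card_le_univ I)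
  have hPY : P ≤ Y ^ n := hle I
  have hQY : Q ≤ Y ^ n := hle J
  have hnz : (e : ℤ) * ((P : ℤ) - Q) ≠ 0 := by
    refine mul_ne_zero (by exact_mod_cast (by omega : e ≠ 0)) (sub_ne_zero.2 ?_)
    exact_mod_cast hne
  have h5 := Int.natAbs_dvd_natAbs.2 hfin
  rw [Int.natAbs_natCast, Int.natAbs_mul, Int.natAbs_natCast] at h5
  have h6 : 0 < e * ((P : ℤ) - Q).natAbs := by
    have h7 : ((P : ℤ) - Q).natAbs ≠ 0 := by
      rw [Ne, Int.natAbs_eq_zero]
      intro h8
      exact hne (by exact_mod_cast sub_eq_zero.1 h8)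
    positivity
  refine (Nat.le_of_dvd h6 h5).trans (Nat.mul_le_mul_left _ ?_)
  omega

end Pool.Agent.W511.RA.PG2
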